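import Pool.Agent.Q17.LogOzone.Poly

/-!
# MP_c5669f_al, Q1: a positive answer

Let `k` be a field of characteristic `p > 0` and let `P = k[x_1, …, x_n]` be a polynomial Poisson
algebra over `k` (`PoissonBracket k (MvPolynomial (Fin n) k)`).  There is a Poisson normal
polynomial `Ω` with `{a, Ω} = φ(a) Ω` for all `a`, where `φ` is the modular derivation; so
`φ = δ_Ω`, and `φ` is in the log-ozone group `loz(P)`.

Proof in outline.  Let `K` be the field of fractions and let `V` be the `K`-span of the
`p`-power iterates of the Hamiltonian derivations `X_a`; by the formulas of Jacobson and Hochschild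
it is closed under brackets and `p`-th powers, so it has a basis `W_j` of commuting derivations
dual to some `t_j ∈ K`, with `W_j ^ p = 0`.  `V` also has a basis consisting of a symplectic basis
of the span of the `X_a` and of iterates `Y` with `[X_a, Y]` Hamiltonian, so the matrices of
`[X_a, -]` have trace zero and the determinant relating the two bases gives `g` with
`X_a(g) = -∑ W_j(X_a(t_j)) g`.  The operator `f ↦ ∏ W_j^(p-1) (g f)` kills all `{a, f}`; its
transpose with respect to `f ↦ ∏ ∂_i^(p-1) f` gives a rational function `g₀` with
`{a, g₀} = φ(a) g₀`, and `Ω` is `g₀` times a `p`-th power.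
-/

namespace Pool.Agent.Results.MP_c5669f_al

universe u

open Q17.LogOzone

/-- `modular B` is the modular derivation `φ(f) = ∑ ∂_j {x_j, f}`; it is `δ_Ω` for a Poisson normal
element `Ω`, and it is in `loz(P)`. -/
theorem ModularLogOzone.result :
    ∀ (n : ℕ) (k : Type u) [Field k] (p : ℕ), p.Prime → CharP k p →
      ∀ B : PoissonBracket k (MvPolynomial (Fin n) k),
        (∀ f, modular B f = ∑ j, MvPolynomial.pderiv j (B.br (MvPolynomial.X j) f)) ∧
        (∃ Ω, IsPoissonNormal B Ω ∧ IsLogOzone B Ω (modular B)) ∧
        modular B ∈ loz B :=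
  fun _ _ _ p hp _ B => ⟨modular_apply B, modular_eq B p hp⟩

end Pool.Agent.Results.MP_c5669f_al
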